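import Pool.Agent.Helper35.MS.StH

/-! Project MS: module CNV (helper72). The rescaled flow. -/

set_option autoImplicit false

namespace Helper72.MS

open Helper35.MS Helper35.PI Helper35.PI2
open scoped ContDiff Manifold Topology ENNReal BigOperators
open MeasureTheory Set Filter

private theorem pos_of {TE τ : ℝ} (hTE4 : TE ≤ 1 / 4) (h : τ < TE) : 0 < 1 - 4 * τ := by
  linarith

private theorem sg_tm {τ : ℝ} (h : 0 < 1 - 4 * τ) : sgT (tmS τ) = τ := by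
  unfold sgT tmS
  have h1 : -4 * -(Real.log (1 - 4 * τ) / 4) = Real.log (1 - 4 * τ) := by ring
  rw [h1, Real.exp_log h]
  ring

private theorem tm_nonneg {τ : ℝ} (h : 0 < 1 - 4 * τ) (h0 : 0 ≤ τ) : 0 ≤ tmS τ := by
  unfold tmS
  have h1 : Real.log (1 - 4 * τ) ≤ 0 := Real.log_nonpos h.le (by linarith)
  linarith

private theorem tm_pos {τ : ℝ} (h : 0 < 1 - 4 * τ) (h0 : 0 < τ) : 0 < tmS τ := by
  unfold tmS
  have h1 : Real.log (1 - 4 * τ) < 0 := Real.log_neg h (by linarith)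
  linarith

private theorem sg_cont : Continuous sgT := by
  unfold sgT
  fun_prop

private theorem tm_deriv {τ : ℝ} (h : 0 < 1 - 4 * τ) : HasDerivAt tmS (1 / (1 - 4 * τ)) τ := by
  have h1 : HasDerivAt (fun x : ℝ => 1 - 4 * x) (-4) τ := by
    have := ((hasDerivAt_id τ).const_mul 4).const_sub 1
    simpa using this
  have h2 := ((h1.log h.ne').div_const 4).neg
  refine h2.congr_deriv ?_
  field_simp

private theorem sq_deriv {τ : ℝ} (h : 0 < 1 - 4 * τ) :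
    HasDerivAt (fun x : ℝ => Real.sqrt (1 - 4 * x)) (-2 / Real.sqrt (1 - 4 * τ)) τ := by
  have h1 : HasDerivAt (fun x : ℝ => 1 - 4 * x) (-4) τ := by
    have := ((hasDerivAt_id τ).const_mul 4).const_sub 1
    simpa using this
  have h2 := h1.sqrt h.ne'
  refine h2.congr_deriv ?_
  have h3 : Real.sqrt (1 - 4 * τ) ≠ 0 := (Real.sqrt_pos.2 h).ne'
  field_simp
  norm_num

/-- Module CNV. -/
theorem hCNV (hSCL : StSCL) (hHSQ : StHSQ) (hCT0 : StCT0) : StCNV := by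
  intro N M _ _ _ F TE hTE hTE4 hF
  have hmem : ∀ τ ∈ Ico 0 TE, tmS τ ∈ IS TE := by
    intro τ hτ
    have h := pos_of hTE4 hτ.2
    refine ⟨tm_nonneg h hτ.1, ?_⟩
    rw [sg_tm h]
    exact hτ.2
  have hsc : ∀ τ ∈ Ico 0 TE, ∀ q, LI (loc (n := 2) (FEs F) q τ) (chartAt (EE 2) q q) ∧
      HH (n := 2) (FEs F) q τ = (1 / Real.sqrt (1 - 4 * τ)) • HH (n := 2) F q (tmS τ) ∧
      AA (n := 2) (FEs F) q τ = AA (n := 2) F q (tmS τ) / Real.sqrt (1 - 4 * τ) ^ 2 ∧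
      ZF (n := 2) (FEs F) q τ = ZF (n := 2) F q (tmS τ) / Real.sqrt (1 - 4 * τ) ^ 4 := by
    intro τ hτ q
    have h := pos_of hTE4 hτ.2
    exact hSCL 2 N M F (FEs F) (tmS τ) τ (Real.sqrt (1 - 4 * τ)) (Real.sqrt_pos.2 h)
      (fun q => rfl) q (hF.imm q (tmS τ) (hmem τ hτ))
  refine ⟨⟨⟨isOpen_Ioo, ?_, ?_⟩, ?_⟩, ?_⟩
  · -- smoothness
    have e1 : ContDiffOn ℝ ∞ tmS (Ioo 0 TE) := by
      unfold tmS
      refine (ContDiffOn.div_const (ContDiffOn.log ?_ ?_) 4).neg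
      · exact (contDiff_const.sub (contDiff_const.mul contDiff_id)).contDiffOn
      · intro x hx
        exact (pos_of hTE4 hx.2).ne'
    have e2 : ContDiffOn ℝ ∞ (fun x : ℝ => Real.sqrt (1 - 4 * x)) (Ioo 0 TE) := by
      refine ContDiffOn.sqrt ?_ ?_
      · exact (contDiff_const.sub (contDiff_const.mul contDiff_id)).contDiffOn
      · intro x hx
        exact (pos_of hTE4 hx.2).ne'
    have hsnd : ContMDiffOn ((𝓡 2).prod 𝓘(ℝ, ℝ)) 𝓘(ℝ, ℝ) ∞ (Prod.snd : M × ℝ → ℝ)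
        (univ ×ˢ Ioo 0 TE) := contMDiff_snd.contMDiffOn
    have hm : MapsTo (Prod.snd : M × ℝ → ℝ) (univ ×ˢ Ioo 0 TE) (Ioo 0 TE) :=
      fun z hz => hz.2
    have e3 : ContMDiffOn ((𝓡 2).prod 𝓘(ℝ, ℝ)) 𝓘(ℝ, ℝ) ∞ (fun z : M × ℝ => tmS z.2)
        (univ ×ˢ Ioo 0 TE) := (contMDiffOn_iff_contDiffOn.2 e1).comp hsnd hm
    have e4 : ContMDiffOn ((𝓡 2).prod 𝓘(ℝ, ℝ)) 𝓘(ℝ, ℝ) ∞
        (fun z : M × ℝ => Real.sqrt (1 - 4 * z.2)) (univ ×ˢ Ioo 0 TE) :=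
      (contMDiffOn_iff_contDiffOn.2 e2).comp hsnd hm
    have e5 : ContMDiffOn ((𝓡 2).prod 𝓘(ℝ, ℝ)) ((𝓡 2).prod 𝓘(ℝ, ℝ)) ∞
        (fun z : M × ℝ => (z.1, tmS z.2)) (univ ×ˢ Ioo 0 TE) :=
      (contMDiff_fst.contMDiffOn).prodMk e3
    have e6 : MapsTo (fun z : M × ℝ => (z.1, tmS z.2)) (univ ×ˢ Ioo 0 TE) (univ ×ˢ IS TE) :=
      fun z hz => ⟨mem_univ _, hmem z.2 ⟨hz.2.1.le, hz.2.2⟩⟩
    exact e4.smul (hF.smooth.comp e5 e6)
  · intro p τ hτ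
    exact (hsc τ ⟨hτ.1.le, hτ.2⟩ p).1
  · intro p τ hτ
    have hτ' : τ ∈ Ico 0 TE := ⟨hτ.1.le, hτ.2⟩
    have h := pos_of hTE4 hτ.2
    have hr : 0 < Real.sqrt (1 - 4 * τ) := Real.sqrt_pos.2 h
    obtain ⟨-, hHH, -, -⟩ := hsc τ hτ' p
    have ht := hmem τ hτ'
    have hnhds : IS TE ∈ 𝓝 (tmS τ) := by
      have h1 : ∀ᶠ t in 𝓝 (tmS τ), 0 < t := lt_mem_nhds (tm_pos h hτ.1)
      have h2 : ∀ᶠ t in 𝓝 (tmS τ), sgT t < TE := by
        refine sg_cont.continuousAt.eventually (gt_mem_nhds ?_)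
        rw [sg_tm h]
        exact hτ.2
      filter_upwards [h1, h2] with t a b
      exact ⟨a.le, b⟩
    have hd : HasDerivAt (fun t => F p t) (HS (n := 2) F p (tmS τ)) (tmS τ) :=
      (hF.flow p (tmS τ) ht).hasDerivAt hnhds
    have hcomp : HasDerivAt (fun x => F p (tmS x))
        ((1 / (1 - 4 * τ)) • HS (n := 2) F p (tmS τ)) τ := hd.scomp τ (tm_deriv h)
    have hprod := (sq_deriv h).smul hcomp
    obtain ⟨himm, hfr⟩ := (hCT0 N M (IS TE) F hF).1 (tmS τ) ht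
    obtain ⟨g1, -, -, g2, -⟩ := hfr p 0
    have hq := (hHSQ N M univ (fun q (_ : ℝ) => F q (tmS τ)) himm 0 (mem_univ _)
      (fun q => hF.sph q (tmS τ) ht) p).1
    rw [g1, g2] at hq
    rw [hHH]
    refine hprod.congr_deriv ?_
    rw [hq]
    have h5 : Real.sqrt (1 - 4 * τ) ^ 2 = 1 - 4 * τ := Real.sq_sqrt h.le
    rw [← h5]
    generalize Real.sqrt (1 - 4 * τ) = r at hr
    have hr0 : r ≠ 0 := hr.ne'
    rw [Real.sqrt_sq hr.le]
    simp only [smul_add, smul_smul]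
    have a1 : r * (1 / r ^ 2) = 1 / r := by field_simp
    have a2 : r * (1 / r ^ 2 * 2) = 2 / r := by field_simp
    have a3 : (-2 / r) = -(2 / r) := by ring
    rw [a1, a2, a3, neg_smul]
    abel
  · intro τ hτ
    have h := pos_of hTE4 hτ.2
    refine ⟨hmem τ hτ, sg_tm h, fun q => ?_⟩
    obtain ⟨-, h2, h3, h4⟩ := hsc τ hτ q
    have h5 : Real.sqrt (1 - 4 * τ) ^ 2 = 1 - 4 * τ := Real.sq_sqrt h.le
    refine ⟨?_, h2, ?_, ?_⟩
    · unfold FEs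
      rw [norm_smul, hF.sph q (tmS τ) (hmem τ hτ), mul_one, Real.norm_eq_abs, sq_abs, h5]
    · rw [h3, h5]
    · rw [h4]
      have h6 : Real.sqrt (1 - 4 * τ) ^ 4 = (Real.sqrt (1 - 4 * τ) ^ 2) ^ 2 := by ring
      rw [h6, h5]

end Helper72.MS
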