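import Pool.Agent.Helper35.MS.StGB
import Pool.Agent.Helper45.PI2.M_IB

/-! Project MS: module GIB (helper72). The field `zfd` and its divergence are invariant. -/

set_option autoImplicit false

namespace Helper72.MS

open Helper35.MS Helper35.PI Helper35.PI2
open Helper45.PI2 (QH jac)
open scoped ContDiff Manifold Topology ENNReal BigOperators
open MeasureTheory Set Filter

variable {n N : ℕ}

/-- the hypotheses at one point, of finite order -/
private structure QW (f h V W : EE n → EE N) (φ : EE n → EE n) (z : EE n) : Prop where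
  q : QH f h φ z
  hW : W =ᶠ[𝓝 z] (fun y => V (φ y))
  dV : DifferentiableAt ℝ V (φ z)

/-- the covectors transform by the Jacobian matrix -/
private theorem core {f h V W : EE n → EE N} {φ : EE n → EE n} {z : EE n}
    (hNR : Helper35.PI.StNR) (hI1 : Helper35.PI.StI1)
    (hq : QW f h V W φ z) (k : Fin n) :
    zcv h W z k = ∑ a, jac φ z k a * zcv f V (φ z) a := by
  have q : QH f h φ z := hq.q
  obtain ⟨hLIf, hspan, hdet⟩ := Helper67.PI.spans f h z (φ z) (jac φ z) q.hJ q.li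
  have hinv := Helper67.PI.gram_inv f h z (φ z) (jac φ z) q.hJ hdet
  have hφd : DifferentiableAt ℝ φ z := q.hφ.differentiableAt (by norm_num)
  have em : mcv h z = mcv f (φ z) := (hI1 n N f h φ z q.hf q.hφ q.hh q.li).2.1
  have dmc : ∀ m : Fin n, fderiv ℝ W z (ee m)
      = ∑ a, jac φ z m a • fderiv ℝ V (φ z) (ee a) := by
    intro m
    rw [hq.hW.fderiv_eq, fderiv_fun_comp z hq.dV hφd, ContinuousLinearMap.comp_apply]
    exact Helper51.PI.lin_expand _ _
  have hS : ∑ l, ∑ m, (gram h z)⁻¹ l m * (inner ℝ (sff h z k l) (fderiv ℝ W z (ee m)) : ℝ)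
      = ∑ a, jac φ z k a * ∑ l, ∑ m, (gram f (φ z))⁻¹ l m *
        (inner ℝ (sff f (φ z) a l) (fderiv ℝ V (φ z) (ee m)) : ℝ) := by
    have e1 : ∀ l m : Fin n, (gram h z)⁻¹ l m * (inner ℝ (sff h z k l)
        (fderiv ℝ W z (ee m)) : ℝ) = (gram h z)⁻¹ l m • ∑ r, ∑ s,
          (jac φ z l r * jac φ z m s) • (∑ a, jac φ z k a *
            (inner ℝ (sff f (φ z) a r) (fderiv ℝ V (φ z) (ee s)) : ℝ)) := by
      intro l m
      rw [smul_eq_mul]
      congr 1
      rw [q.sff hNR k l, dmc m, sum_inner]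
      have e2 : ∀ a : Fin n, (inner ℝ (∑ b, (jac φ z k a * jac φ z l b) • sff f (φ z) a b)
          (∑ s, jac φ z m s • fderiv ℝ V (φ z) (ee s)) : ℝ)
          = ∑ r, ∑ s, jac φ z l r * jac φ z m s * (jac φ z k a *
            (inner ℝ (sff f (φ z) a r) (fderiv ℝ V (φ z) (ee s)) : ℝ)) := by
        intro a
        rw [sum_inner]
        refine Finset.sum_congr rfl fun r _ => ?_
        rw [inner_sum]
        refine Finset.sum_congr rfl fun s _ => ?_
        rw [real_inner_smul_left, real_inner_smul_right]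
        ring
      rw [Finset.sum_congr rfl fun a _ => e2 a, Finset.sum_comm]
      refine Finset.sum_congr rfl fun r _ => ?_
      rw [Finset.sum_comm]
      refine Finset.sum_congr rfl fun s _ => ?_
      rw [smul_eq_mul, Finset.mul_sum]
    simp_rw [e1]
    rw [Helper67.PI.contr, hinv]
    have e3 : ∀ r s : Fin n, (gram f (φ z))⁻¹ r s • (∑ a, jac φ z k a *
            (inner ℝ (sff f (φ z) a r) (fderiv ℝ V (φ z) (ee s)) : ℝ))
        = ∑ a, jac φ z k a * ((gram f (φ z))⁻¹ r s *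
            (inner ℝ (sff f (φ z) a r) (fderiv ℝ V (φ z) (ee s)) : ℝ)) := by
      intro r s
      rw [smul_eq_mul, Finset.mul_sum]
      exact Finset.sum_congr rfl fun a _ => by ring
    simp_rw [e3, Finset.mul_sum]
    symm
    rw [Finset.sum_comm]
    refine Finset.sum_congr rfl fun r _ => ?_
    rw [Finset.sum_comm]
  have hH : (inner ℝ (mcv h z) (fderiv ℝ W z (ee k)) : ℝ)
      = ∑ a, jac φ z k a * (inner ℝ (mcv f (φ z)) (fderiv ℝ V (φ z) (ee a)) : ℝ) := by
    rw [em, dmc k, inner_sum]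
    refine Finset.sum_congr rfl fun a _ => ?_
    rw [real_inner_smul_right]
  unfold zcv
  rw [hH, hS, ← Finset.sum_sub_distrib, Finset.mul_sum]
  refine Finset.sum_congr rfl fun a _ => ?_
  ring

/-- the field at one point -/
private theorem field_eq {f h V W : EE n → EE N} {φ : EE n → EE n} {z : EE n}
    (hNR : Helper35.PI.StNR) (hI1 : Helper35.PI.StI1)
    (hq : QW f h V W φ z) : zfd h W z = zfd f V (φ z) := by
  have q : QH f h φ z := hq.q
  obtain ⟨hLIf, hspan, hdet⟩ := Helper67.PI.spans f h z (φ z) (jac φ z) q.hJ q.li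
  have hinv := Helper67.PI.gram_inv f h z (φ z) (jac φ z) q.hJ hdet
  have e1 : ∀ k l : Fin n, ((gram h z)⁻¹ k l * zcv h W z k) • dv1 h z l
      = (gram h z)⁻¹ k l • ∑ r, ∑ s, (jac φ z k r * jac φ z l s) •
        (zcv f V (φ z) r • dv1 f (φ z) s) := by
    intro k l
    rw [core hNR hI1 hq k, q.hJ l, mul_smul]
    congr 1
    rw [Finset.sum_smul]
    refine Finset.sum_congr rfl fun r _ => ?_
    rw [Finset.smul_sum]
    refine Finset.sum_congr rfl fun s _ => ?_
    rw [smul_smul, smul_smul]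
    congr 1
    ring
  unfold zfd
  simp_rw [e1]
  rw [Helper67.PI.contr, hinv]
  refine Finset.sum_congr rfl fun r _ => Finset.sum_congr rfl fun s _ => ?_
  rw [smul_smul]

/-- Module GIB. -/
theorem hGIB (hGSM : StGSM) (hI1 : Helper35.PI.StI1) (_hFR : Helper35.PI.StFR)
    (hNR : Helper35.PI.StNR) (hSM : Helper35.PI.StSM) : StGIB := by
  intro n N f h V W φ x hf hV hφ hh hW hLI
  have h1le : ∀ m : ℕ, ((m : ℕ∞) : WithTop ℕ∞) ≤ ((⊤ : ℕ∞) : WithTop ℕ∞) := fun m => WithTop.coe_le_coe.2 le_top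
  have h2le : (2 : WithTop ℕ∞) ≤ ((⊤ : ℕ∞) : WithTop ℕ∞) := h1le 2
  have h1le' : (1 : WithTop ℕ∞) ≤ ((⊤ : ℕ∞) : WithTop ℕ∞) := h1le 1
  -- smoothness of `h`
  have hhs : ContDiffAt ℝ ∞ h x := (hf.comp x hφ).congr_of_eventuallyEq hh
  have hLIf : LI f (φ x) :=
    (hI1 n N f h φ x (hf.of_le h2le) (hφ.of_le h2le) hh hLI).1
  have slice : ∀ {V : Type} [NormedAddCommGroup V] [NormedSpace ℝ V] (g : EE n → V) (y : EE n),
      ContDiffAt ℝ ∞ (fun z : EE n × ℝ => g z.1) (y, 0) → ContDiffAt ℝ ∞ g y := by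
    intro V _ _ g y hg
    have h3 : ContDiffAt ℝ ∞ (fun w : EE n => (w, (0 : ℝ))) y :=
      contDiffAt_id.prodMk contDiffAt_const
    have h4 := ContDiffAt.comp (g := fun z : EE n × ℝ => g z.1)
      (f := fun w : EE n => (w, (0 : ℝ))) y hg h3
    exact h4
  have lift : ∀ {V : Type} [NormedAddCommGroup V] [NormedSpace ℝ V] (g : EE n → V) (y : EE n),
      ContDiffAt ℝ ∞ g y → ContDiffAt ℝ ∞ (fun z : EE n × ℝ => g z.1) (y, 0) := by
    intro V _ _ g y hg
    exact ContDiffAt.comp (y, (0 : ℝ)) hg contDiffAt_fst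
  have hSh := hSM n N (fun z => h z.1) (x, 0) (lift h x hhs) hLI
  have hSf := hSM n N (fun z => f z.1) (φ x, 0) (lift f (φ x) hf) hLIf
  have hmf : ContDiffAt ℝ ∞ (mcv f) (φ x) := slice (mcv f) (φ x) hSf.2.2.2.2.2.2.2.1
  have hnf : ContDiffAt ℝ ∞ (nsq f) (φ x) := slice (nsq f) (φ x) hSf.2.2.2.2.2.2.2.2.1
  have hLIe : ∀ᶠ y in 𝓝 x, LI h y := by
    have h3 : Tendsto (fun w : EE n => (w, (0 : ℝ))) (𝓝 x) (𝓝 (x, 0)) :=
      (continuous_id.prodMk continuous_const).continuousAt
    exact (h3.eventually hSh.1).mono fun y hy => hy.1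
  have hφc : ContinuousAt φ x := hφ.continuousAt
  have hq : ∀ᶠ y in 𝓝 x, QW f h V W φ y := by
    filter_upwards [hφc.eventually ((hf.of_le h2le).eventually (by decide)),
      (hφ.of_le h2le).eventually (by decide), hh.eventuallyEq_nhds, hLIe,
      hφc.eventually ((hmf.of_le h1le').eventually (by decide)),
      hφc.eventually ((hnf.of_le h1le').eventually (by decide)),
      hW.eventuallyEq_nhds,
      hφc.eventually ((hV.of_le h1le').eventually (by decide))] with y a1 a2 a3 a4 a5 a6 a7 a8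
    exact ⟨⟨a1, a2, a3, a4, a5.differentiableAt (by norm_num),
      a6.differentiableAt (by norm_num)⟩, a7, a8.differentiableAt (by norm_num)⟩
  have hZ : zfd h W =ᶠ[𝓝 x] fun y => zfd f V (φ y) := by
    filter_upwards [hq] with y hy
    exact field_eq hNR hI1 hy
  refine ⟨hZ.self_of_nhds, ?_⟩
  -- the divergence
  have q : QH f h φ x := hq.self_of_nhds.q
  obtain ⟨-, hspan, hdet⟩ := Helper67.PI.spans f h x (φ x) (jac φ x) q.hJ q.li
  have hinv := Helper67.PI.gram_inv f h x (φ x) (jac φ x) q.hJ hdet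
  have hVd : DifferentiableAt ℝ (zfd f V) (φ x) :=
    (hGSM n N f V (φ x) hf hV hLIf).2.1.differentiableAt (by norm_num)
  have hφd : DifferentiableAt ℝ φ x := q.hφ.differentiableAt (by norm_num)
  have hdX : ∀ i : Fin n, fderiv ℝ (zfd h W) x (ee i)
      = ∑ a, jac φ x i a • fderiv ℝ (zfd f V) (φ x) (ee a) := by
    intro i
    rw [hZ.fderiv_eq, fderiv_fun_comp x hVd hφd, ContinuousLinearMap.comp_apply]
    exact Helper51.PI.lin_expand _ _
  unfold dvc
  have e1 : ∀ i j : Fin n, (gram h x)⁻¹ i j * (inner ℝ (fderiv ℝ (zfd h W) x (ee i))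
      (dv1 h x j) : ℝ) = (gram h x)⁻¹ i j • ∑ r, ∑ s, (jac φ x i r * jac φ x j s) •
        (inner ℝ (fderiv ℝ (zfd f V) (φ x) (ee r)) (dv1 f (φ x) s) : ℝ) := by
    intro i j
    rw [smul_eq_mul]
    congr 1
    rw [hdX i, q.hJ j, sum_inner]
    refine Finset.sum_congr rfl fun r _ => ?_
    rw [inner_sum]
    refine Finset.sum_congr rfl fun s _ => ?_
    rw [real_inner_smul_left, real_inner_smul_right, smul_eq_mul]
    ring
  simp_rw [e1]
  rw [Helper67.PI.contr, hinv]
  rfl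

end Helper72.MS
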